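import Pool.Agent.H5.UnifS

set_option autoImplicit false

namespace Pool.Agent.Results.MP_973dba_an.Bidual

open Filter Topology Set Pool.Agent.H5 Pool.Agent.H5.Asq Pool.Agent.H5.UnifS

/-- the quantity `U(x, y; a)` -/
noncomputable def U {X : Type} [NormedAddCommGroup X] (x y : X) (a : ℝ) : ℝ :=
  sSup {t | ∃ z : X, ‖z‖ ≤ a ∧ t = |‖x + z‖ - ‖y + z‖|}

/-- the modulus `U(d; a)` -/
noncomputable def Ud (X : Type) [NormedAddCommGroup X] (d a : ℝ) : ℝ :=
  sInf {t | ∃ x y : X, ‖x‖ = 1 ∧ ‖y‖ = 1 ∧ d ≤ ‖x - y‖ ∧ t = U x y a}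

/-- uniform property (S) -/
def UniformS (X : Type) [NormedAddCommGroup X] : Prop :=
  ∀ d : ℝ, 0 < d → d < 2 → ∀ a : ℝ, 0 < a → 0 < Ud X d a

lemma le_U {X : Type} [NormedAddCommGroup X] (x y : X) {a : ℝ} {z : X} (hz : ‖z‖ ≤ a) :
    |‖x + z‖ - ‖y + z‖| ≤ U x y a := by
  refine le_csSup ⟨‖x - y‖, ?_⟩ ⟨z, hz, rfl⟩
  rintro _ ⟨z, -, rfl⟩
  simpa using abs_norm_sub_norm_le (x + z) (y + z)

/-- A space with uniform property (S) whose bidual fails it. -/
theorem result : ∃ (X : Type) (_ : NormedAddCommGroup X) (_ : NormedSpace ℝ X)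
    (_ : CompleteSpace X), UniformS X ∧ ¬ UniformS (StrongDual ℝ (StrongDual ℝ X)) := by
  obtain ⟨X, i1, i2, i3, e, he⟩ := UnifS.space
  refine ⟨X, i1, i2, i3, fun d d0 d2 a a0 => ?_, fun h => ?_⟩
  · obtain ⟨c, hc, h⟩ := F_small (s := min a 1) d0
    haveI : Nontrivial l1 := ⟨lp.single 1 0 1, 0, fun h => by
      simpa [lp.norm_single] using congrArg norm h⟩
    haveI := e.symm.toEquiv.nontrivial
    obtain ⟨x, hx⟩ := exists_norm_eq X zero_le_one
    refine lt_of_lt_of_le (lt_min hc one_pos) (le_csInf ⟨_, x, -x, hx, by rwa [norm_neg], by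
      rw [sub_neg_eq_add, ← two_smul ℝ, norm_smul, hx]; simpa using d2.le, rfl⟩ ?_)
    rintro _ ⟨x, y, hx, hy, hd, rfl⟩
    obtain ⟨v, rfl⟩ := e.surjective x
    obtain ⟨w, rfl⟩ := e.surjective y
    by_contra! h1
    have h2 := est ((he v).symm.trans hx) ((he w).symm.trans hy) (lt_min a0 one_pos)
      (min_le_right _ _) (h1.le.trans (min_le_right _ _)) fun z hz => by
        rw [← he, ← he, map_add, map_add]
        exact (le_abs_self _).trans (le_U _ _ ((he z).trans_le (hz.trans (min_le_left _ _))))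
    have h3 := h _ ((abs_nonneg _).trans (le_U (e v) (e w) (z := 0) (by simpa using a0.le)))
      (h1.trans_le (min_le_left _ _))
    rw [← map_sub, he] at hd
    linarith
  · obtain ⟨φ, ψ, hφ, hψ⟩ := points e he
    have m1 : StrictMono fun k : ℕ => 2 * k := fun a b h => by dsimp only; omega
    have m2 : StrictMono fun k : ℕ => 2 * k + 1 := fun a b h => by dsimp only; omega
    have key : ∀ a b : ℝ, 1 / 4 ≤ a → 1 / 4 ≤ b → ∀ z : StrongDual ℝ (StrongDual ℝ X),
        ‖z‖ ≤ 1 / 4 → ‖a • φ + b • ψ + z‖ ≤ ‖b • φ + a • ψ + z‖ := fun a b ha hb z hz => by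
      have k1 : ∀ G : StrongDual ℝ X, ‖G‖ = 1 → (a • φ + b • ψ + z) G ≤ ‖b • φ + a • ψ + z‖ := by
        intro G hG
        refine le_of_forall_pos_le_add fun ε hε => ?_
        obtain ⟨-, G', k2, k3, k4, k5⟩ := UnifS.swap e he m1 m2 hφ hψ G hG.le hε
        have k6 := (le_abs_self _).trans ((b • φ + a • ψ + z).unit_le_opNorm _ k2)
        have k7 := (neg_abs_le _).trans' (neg_le_neg ((z.le_of_opNorm_le hz G').trans
          (mul_le_mul_of_nonneg_left k3 (by norm_num))))
        simp only [add_apply, smul_apply, smul_eq_mul] at k6 ⊢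
        rw [k4, k5, map_add z] at k6
        rcases le_total (φ G) (ψ G) with m | m
        · rw [max_eq_right m] at k6
          rw [abs_of_nonpos (sub_nonpos.2 m)] at k7
          nlinarith
        · rw [max_eq_left m] at k6
          rw [abs_of_nonneg (sub_nonneg.2 m)] at k7
          nlinarith
      refine ContinuousLinearMap.opNorm_le_of_unit_norm (ContinuousLinearMap.opNorm_nonneg _)
        fun G hG =>
        abs_le.2 ⟨?_, k1 G hG⟩
      have k2 := k1 (-G) (by rwa [norm_neg])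
      rw [map_neg] at k2
      linarith
    have test : ∀ s : ℝ, |s| ≤ 1 → ∃ G : StrongDual ℝ X, ‖G‖ ≤ 1 ∧ φ G = 1 ∧ ψ G = s :=
      fun s hs => by
        obtain ⟨G, k1, k2⟩ := coef e he (fun n => if n % 2 = 0 then 1 else s) one_pos
          fun n => by split_ifs <;> simp [hs]
        refine ⟨G, k1, tendsto_nhds_unique (hφ G) (tendsto_const_nhds.congr fun k => ?_),
          tendsto_nhds_unique (hψ G) (tendsto_const_nhds.congr fun k => ?_)⟩
        · rw [single_eq (k2 _), if_pos (by omega)]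
        · rw [single_eq (k2 _), if_neg (by omega)]
    have unit : ∀ a b : ℝ, 0 ≤ a → 0 ≤ b → a + b = 1 → ‖a • φ + b • ψ‖ = 1 := fun a b ha hb hab => by
      refine le_antisymm (ContinuousLinearMap.opNorm_le_of_unit_norm zero_le_one fun G hG => ?_) ?_
      · have k1 := abs_le.1 (UnifS.swap e he m1 m2 hφ hψ G hG.le one_pos).1
        have k2 := abs_le.1 (UnifS.swap e he m2 m1 hψ hφ G hG.le one_pos).1
        simp only [add_apply, smul_apply, smul_eq_mul, Real.norm_eq_abs]
        exact abs_le.2 ⟨by nlinarith [k1.1, k2.1], by nlinarith [k1.2, k2.2]⟩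
      · obtain ⟨G, k1, k2, k3⟩ := test 1 (by simp)
        simpa [k2, k3, hab] using (a • φ + b • ψ).unit_le_opNorm G k1
    refine (h 1 one_pos one_lt_two (1 / 4) (by norm_num)).not_ge (csInf_le_of_le ⟨0, ?_⟩
      ⟨(3 / 4 : ℝ) • φ + (1 / 4 : ℝ) • ψ, (1 / 4 : ℝ) • φ + (3 / 4 : ℝ) • ψ,
        unit _ _ (by norm_num) (by norm_num) (by norm_num),
        unit _ _ (by norm_num) (by norm_num) (by norm_num), ?_, rfl⟩ ?_)
    · rintro _ ⟨x, y, -, -, -, rfl⟩
      exact (abs_nonneg _).trans (le_U x y (z := 0)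
        (ContinuousLinearMap.opNorm_zero.trans_le (by norm_num)))
    · obtain ⟨G, k1, k2, k3⟩ := test (-1) (by simp)
      refine le_trans ?_ (ContinuousLinearMap.unit_le_opNorm _ G k1)
      simp only [add_apply, sub_apply, smul_apply, smul_eq_mul, k2, k3]
      norm_num
    · refine csSup_le ⟨_, 0, ContinuousLinearMap.opNorm_zero.trans_le (by norm_num), rfl⟩ ?_
      rintro _ ⟨z, hz, rfl⟩
      rw [le_antisymm (key (3 / 4) (1 / 4) (by norm_num) le_rfl z hz)
        (key (1 / 4) (3 / 4) le_rfl (by norm_num) z hz), sub_self, abs_zero]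

end Pool.Agent.Results.MP_973dba_an.Bidual
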